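import Pool.Agent.KS6_88.TV.Main

/-!
# Non-uniqueness for multifluid incompressible MHD with a two-valued initial density

This is the model case of the problem: the initial density takes two positive constant values
only. `Ω ⊂ ℝ³` is any bounded nonempty open set, `T > 0`, the two densities `a < b` are arbitrary
up to the bound `b - a ≤ (a + b) / 20000` for their difference, the conductivity `σ` is arbitrary
and the viscosity `η` is any admissible one with `η a = η b` (the same viscosity in both fluids).

For every smooth divergence free field `v` with compact support in `(0,T) × Ω` and small gradient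
(`v = 0` is allowed) and every `δ > 0` there are a density `ρ₀` with values `a` and `b`, both on a
set of positive measure, and a force `f ∈ L²(0,T;L²)` such that for the data `u₀ = B₀ = 0`, `ρ₀`,
`f` there are two weak solutions: the fluid at rest, and a moving fluid `(ρ, u, 0)`, `u ≠ 0`, whose
density takes only the values `a` and `b`, and whose velocity is continuously differentiable with
compact support in `(0,T) × Ω` and `δ`-close to `v` together with its first derivatives.

Idea. Convex integration for the specific volume `1/ρ`, which starts at a constant strictly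
between `1/b` and `1/a`; in each step fast oscillations are added to it, to the pressures and (at
second order) to the velocity. The size of the oscillations of the specific volume is a fixed
small fraction of the room that is left between the values `1/b` and `1/a`, for both fluids. The
functionals `∫ √room (|∇p|² + 1)` decay geometrically, the velocity converges in `C¹`, the force
in `L²`, and the specific volume to a function with the two extreme values only.

All the definitions used in the statement are in `Pool.Agent.H729R2.Defs`.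
-/

set_option autoImplicit false

open scoped ContDiff
open MeasureTheory Pool.Agent.H729R2 Pool.Agent.H729R2.MHD

namespace Pool.Agent.Results.MP_59296a_an.TwoValued

/-- **Non-uniqueness for two-valued densities.** -/
theorem result (Ω : Set R3) (hΩ : IsOpen Ω) (hbd : Bornology.IsBounded Ω) (hne : Ω.Nonempty)
    (T : ℝ) (hT : 0 < T) (η σ : ℝ → ℝ) (hη : Coeff η) (hσ : Coeff σ)
    (a b : ℝ) (ha : 0 < a) (hab : a < b) (hjump : b - a ≤ (a + b) / 20000) (hηab : η a = η b)
    (v : ℝ × R3 → R3) (hv : ContDiff ℝ ∞ v) (hvc : HasCompactSupport v)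
    (hvs : tsupport v ⊆ Cyl Ω T) (hdiv : ∀ z, ∑ i, dx i (fun y => v y i) z = 0)
    (hgr : ∀ z i j, 24000 * T * |dx j (fun y => v y i) z| ≤ 1) (δ : ℝ) (hδ : 0 < δ) :
    ∃ (ρ₀ : R3 → ℝ) (f : ℝ → R3 → R3) (ρ : ℝ → R3 → ℝ) (u : ℝ → R3 → R3),
      (∀ x, ρ₀ x = a ∨ ρ₀ x = b) ∧
      0 < volume {x | x ∈ Ω ∧ ρ₀ x = a} ∧ 0 < volume {x | x ∈ Ω ∧ ρ₀ x = b} ∧
      IsData Ω T η σ ρ₀ 0 0 f ∧
      WeakSol Ω T η σ ρ₀ 0 0 f (fun _ => ρ₀) 0 0 ∧
      WeakSol Ω T η σ ρ₀ 0 0 f ρ u 0 ∧
      (∀ t x, ρ t x = a ∨ ρ t x = b) ∧
      ContDiff ℝ 1 (fun z : ℝ × R3 => u z.1 z.2) ∧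
      HasCompactSupport (fun z : ℝ × R3 => u z.1 z.2) ∧
      tsupport (fun z : ℝ × R3 => u z.1 z.2) ⊆ Cyl Ω T ∧
      (∀ z : ℝ × R3, ‖u z.1 z.2 - v z‖ ≤ δ ∧
        ‖fderiv ℝ (fun z : ℝ × R3 => u z.1 z.2 - v z) z‖ ≤ δ) ∧
      ¬ ∀ᵐ z ∂(volume.restrict (Cyl Ω T)), u z.1 z.2 = 0 :=
  Pool.Agent.KS6_88.TV.main hΩ hbd hne hT hη hσ ha hab hjump hηab hv hvc hvs hdiv hgr hδ

end Pool.Agent.Results.MP_59296a_an.TwoValued
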